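import Pool.Agent.J4.H93.WS.RT

/-!
# Maps from complex tori and entire curves for all large tuples of monomials of generic shape

Let `I 1, …, I s` be nonempty sets of the variables `x_0, …, x_n`. The starting result `AlmostAllMonomials` says that the
conclusions below hold for a proportion tending to `1` of the tuples of monomials of degree `d`, the `i`-th one in the variables
from `I i`. Here we determine which tuples: the shape of a tuple is the point `z` with the coordinates `z i j = a i j / d`, in the
product of the affine spans of the faces of the simplex given by the `I i`. A shape is generic (`GenericShape I z`) if its coordinates with `j` in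
`I i` are not zero and if `n` differences of points among the `z i` and the vertices of the simplex (the shapes of the `x_j ^ d`)
are linearly independent whenever this is possible with the given sets `I i`. So the shapes that are not generic lie on finitely
many hypersurfaces, the zeros of determinants.

**Theorem.** Let `K` be a compact set of generic shapes. There are `δ > 0` and `d₀` such that the conclusions `ToriCriteria I d a`
hold for ALL tuples `a` of degree `d ≥ d₀` whose shape has distance at most `δ` from `K`.

`ToriCriteria I d a`: for all projective varieties `X` given by `m` linear combinations `F e` of the monomials with the exponent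
vectors `a i` and of the `x_j ^ d`: `ToriSuffice F` (the Zariski closures of the union of the entire curves in `X`, of the images
of the nonconstant holomorphic maps from complex tori, from one-dimensional tori and from the multiplicative group coincide; it is
equivalent that all holomorphic maps from complex tori to `X` are constant, that all those from one-dimensional tori are constant,
that `X` is Brody hyperbolic, that `X` contains no rational curves, and that the maps `t ↦ (x_j t ^ b_j)` to `X` are constant),
and, if any `m` of the coefficient vectors are linearly independent, all entire curves in `X` lie in the union of the coordinate
subspaces given by the sets `J` of variables on which the `I i` are not well spread with respect to `m`; for the hypersurfaces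
(with arbitrary coefficients) the combinatorial criterion `LooseCriterion F` for maps from complex tori and entire curves.
These notions are those of the starting result.
-/

set_option autoImplicit false

namespace Pool.Agent.Results.MP_45e720_ag.GenericShapes

open Pool.Agent.J4.H93.WS Pool.Agent.J4.H93.WS.RT Pool.Agent.R869.Wd

theorem result {n s : ℕ} (I : Fin s → Finset (Fin (n + 1))) (hI : ∀ i, (I i).Nonempty)
    (K : Set (Fin s → Fin (n + 1) → ℝ)) (hK : IsCompact K) (hg : ∀ z ∈ K, GenericShape I z) :
    ∃ δ : ℝ, 0 < δ ∧ ∃ d₀ : ℕ, ∀ d : ℕ, d₀ ≤ d → ∀ a ∈ TuplesIn I d,
      (∃ z ∈ K, ∀ i j, |(a i j : ℝ) - d * z i j| ≤ δ * d) → ToriCriteria I d a := by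
  obtain ⟨δ, hδ, d₀, h⟩ := typ_compact hI K hK hg
  exact ⟨δ, hδ, d₀, fun d hd a ha hz => criteria_of_typ (h d hd a ha hz)⟩

end Pool.Agent.Results.MP_45e720_ag.GenericShapes
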