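import Pool.Agent.J4.H93.WS.WS8
import Pool.Agent.Results.MP_45e720_ag.AlmostAllMonomials

/-!
# Maps from complex tori and entire curves for all but finitely many members of one-parameter families of systems of monomials

Let the exponent vectors of the monomials be polynomials in one parameter `t`: `A e i j` is the exponent of the variable `x_j` in
the `i`-th monomial of the `e`-th form. We consider the projective varieties `X` given by forms `F e` with arbitrary complex
coefficients such that all exponent vectors which occur in `F e` are among the `A e i (t)`; nothing is assumed about the powers of
the variables.

**Theorem.** Assume one of the following conditions.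
* `NoConstantWidths A`: if the widths of at most `n` pairs of exponent vectors (of the same form) in the variables from a set `I`
  with respect to directions `u` with polynomial entries vanish only if `u` is constant on `I`, then they are all constant only if
  `u` is constant on `I`. If this is violated there are directions for which the widths of the pairs remain bounded for all `t`.
  The condition may hold although the leading coefficients of the exponents are degenerate.
* `LeadingRanks A k`: the exponents have degree at most `k`, and the ranks of the coefficients of `t ^ k` are as large as possible.

Then, for all but finitely many `t`, `ToriSuffice F` for all these systems of forms: the Zariski closures of the union of the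
entire curves in `X = {F = 0}`, of the images of the nonconstant holomorphic maps from complex tori, from one-dimensional complex
tori, and from the multiplicative group coincide, and it is equivalent that all holomorphic maps from complex tori to `X` are
constant, that all those from one-dimensional tori are constant, that `X` is Brody hyperbolic, that `X` contains no rational
curves, and that the maps `t ↦ (x_j t ^ b_j)` to `X` are constant.

The starting result `AlmostAllMonomials` is about almost all tuples of monomials and the powers `x_j ^ d`, and the theorem on wide
systems in its file is used here. New is the criterion for polynomial families: the lattice widths are large for all large `t`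
(`Pool.Agent.J4.H93.WS.wide_poly`), because otherwise the value of a polynomial `D` divides that of another one infinitely often,
and this gives a polynomial direction.
-/

set_option autoImplicit false

namespace Pool.Agent.Results.MP_45e720_ag.PolynomialExponents

open MvPolynomial Pool.Agent.J4.H93.WS Pool.Agent.R869.Wd
open Pool.Agent.Results.MP_45e720_ag.AlmostAllMonomials

/-- For all large `t`, `ToriSuffice F` for all systems of polynomials `F e` all of whose exponent vectors are among the values
`A e i (t)`. -/
theorem result {n s : ℕ} {ι : Type} [Finite ι] (A : ι → Fin s → Fin (n + 1) → Polynomial ℤ)
    (hdeg : ∀ e i i', ∑ j, A e i j = ∑ j, A e i' j) (hA : NoConstantWidths A ∨ ∃ k, LeadingRanks A k) :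
    ∃ t₀ : ℕ, ∀ t : ℕ, t₀ ≤ t → ∀ F : ι → MvPolynomial (Fin (n + 1)) ℂ,
      (∀ e, ∀ α ∈ (F e).support, ∃ i, ∀ j, (α j : ℤ) = (A e i j).eval (t : ℤ)) → ToriSuffice F := by
  obtain ⟨N, hN⟩ : ∃ N, N = n * ((s + 1) * ((s + 1 - 1) * (s + 1 - 2) / 2)) + 1 := ⟨_, rfl⟩
  obtain ⟨t₀, h⟩ := wide_one' hdeg hA N
  refine ⟨t₀, fun t ht F hF => ?_⟩
  have hT : ∀ e, (F e).support ⊆ expT fun i j => (A e i j).eval (t : ℤ) := fun e α hα => mem_expT.2 (hF e α hα)
  refine wide_systems n (s + 1) N ι (fun e => expT fun i j => (A e i j).eval (t : ℤ)) (by omega)
    (fun e => (card_expT _).trans (Nat.le_succ s)) (h t ht) (by omega) F hT fun e =>
      form_expT (fun i i' => ?_) (hT e)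
  rw [← Polynomial.eval_finsetSum, ← Polynomial.eval_finsetSum, hdeg e i i']

end Pool.Agent.Results.MP_45e720_ag.PolynomialExponents
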