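import Pool.Agent.J4.H93.WS.WS8
import Pool.Agent.Results.MP_45e720_ag.AlmostAllMonomials

/-!
# Maps from complex tori and entire curves for almost all members of all polynomial families of systems of monomials

The starting result `AlmostAllMonomials` is about the forms with the monomials `x_j ^ d` and `s` further monomials of degree `d`,
for almost all tuples of such monomials. Here the monomials depend on parameters in an arbitrary way: the exponents are any
polynomials `A e i j` (form `e`, monomial `i`, variable `j`) with integral coefficients in `m` parameters `t_1, …, t_m`, and
nothing is assumed about the powers of the variables. We consider the projective varieties `X` given by forms `F e` with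
arbitrary complex coefficients such that all exponent vectors which occur in `F e` are among the `A e i (t)`.

**Theorem.** Assume one of the following conditions.
* `NoConstantWidthsR A`: take a set `I` of variables and at most `n` pairs of exponent vectors (of the same form) in the variables
  from `I`; if the widths of these pairs with respect to a direction `u` with polynomial entries vanish only if `u` is constant on
  `I`, then they are all integers only if `u` is constant on `I`.
* At some integral point, the same for all `e`, the exponent vectors `A e i` of each form `e` coincide: for example, linear forms in the parameters such as
  `t_1 p_i + t_2 q_i + …`, and the family of all the tuples of monomials.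

Then the parameters `t` for which `ToriSuffice F` (see below) is false for some `X` form a sparse set `E`: for every `η > 0` the
proportion of the elements of `E` in each product `S_1 × ⋯ × S_m` of sets `S_i ⊆ {0, …, H}` with at least `q` elements is at most
`C H ^ η / q`. So almost all members of the family have the property, even if the parameters are taken from arbitrary thin sets
with `H ^ ε` elements.

`ToriSuffice F` (starting result `AlmostAllMonomials`): the Zariski closures of the union of the entire curves in `X = {F = 0}`,
of the images of the nonconstant holomorphic maps from complex tori, from one-dimensional complex tori, and from the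
multiplicative group coincide, and it is equivalent that all holomorphic maps from complex tori to `X` are constant, that all
those from one-dimensional tori are constant, that `X` is Brody hyperbolic, that `X` contains no rational curves, and that the
maps `t ↦ (x_j t ^ b_j)` to `X` are constant.

Proof. Two new steps. (1) The widths with respect to integral directions are bounded only if the value of a polynomial `D` divides
the value of another polynomial `G`, where `D` does not divide any `c G`, or one of finitely many nonzero polynomials vanishes, or
there is a polynomial direction with constant widths (`Pool.Agent.J4.H93.WS.no_direction'`). (2) If `D` does not divide any `c G`,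
then `D (t)` divides `G (t)` only for a sparse set of `t` (`Pool.Agent.J4.H93.WS.sparse_dvd`): a prime factor of `D` and `G` have a
combination which does not depend on one of the parameters and has few divisors. Then the theorem on wide systems of the starting
library (`AlmostAllMonomials.wide_systems`) applies.
-/

set_option autoImplicit false

namespace Pool.Agent.Results.MP_45e720_ag.PolynomialFamilies

open MvPolynomial Pool.Agent.J4.H93.WS Pool.Agent.R869.Wd
open Pool.Agent.Results.MP_45e720_ag.AlmostAllMonomials

/-- For all parameters `t` outside of a sparse set, `ToriSuffice F` for all systems of polynomials `F e` all of whose exponent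
vectors are among the values `A e i (t)`. -/
theorem result {m n s : ℕ} {ι : Type} [Finite ι] (A : ι → Fin s → Fin (n + 1) → MvPolynomial (Fin m) ℤ)
    (hdeg : ∀ e i i', ∑ j, A e i j = ∑ j, A e i' j)
    (hA : NoConstantWidthsR A ∨ ∃ t₀ : Fin m → ℤ, ∀ e i i' j, eval t₀ (A e i j) = eval t₀ (A e i' j)) :
    Sparse {t : Fin m → ℕ | ¬ ∀ F : ι → MvPolynomial (Fin (n + 1)) ℂ,
      (∀ e, ∀ α ∈ (F e).support, ∃ i, ∀ j, (α j : ℤ) = eval (fun k => (t k : ℤ)) (A e i j)) → ToriSuffice F} := by
  obtain ⟨N, hN⟩ : ∃ N, N = n * ((s + 1) * ((s + 1 - 1) * (s + 1 - 2) / 2)) + 1 := ⟨_, rfl⟩
  refine (wide_several' hdeg hA N).mono fun t ht hcon => ht fun F hF => ?_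
  have hT : ∀ e, (F e).support ⊆ expT fun i j => evn t (A e i j) := fun e α hα => mem_expT.2 (hF e α hα)
  refine wide_systems n (s + 1) N ι (fun e => expT fun i j => evn t (A e i j)) (by omega)
    (fun e => (card_expT _).trans (Nat.le_succ s)) hcon (by omega) F hT fun e =>
      form_expT (fun i i' => ?_) (hT e)
  rw [← map_sum, ← map_sum, hdeg e i i']

end Pool.Agent.Results.MP_45e720_ag.PolynomialFamilies
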