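import Pool.Agent.J4.H93.WS.RT

/-!
# Maps from complex tori and entire curves for monomials with independent random exponents of arbitrary laws

Let `I 1, …, I s` be sets of the variables `x_0, …, x_n`, and `piv i` an element of `I i`. The exponents `x (i, j)`, `j` in `I i`,
`j ≠ piv i`, of the `i`-th monomial are independent random integers with arbitrary laws `w (i, j)` on `{0, …, d / n}`; the
exponent of the variable `piv i` is then determined by the degree `d` (`tup I piv d x`). For example, the exponents may be chosen
at random from arbitrary sets of integers: primes, values of a polynomial, integers with restricted digits, even sets with a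
bounded number of elements.

**Theorem.** There is a constant `C`, which depends only on `n`, `s` and the `I i`, and for each `δ > 0` a number `d₀` such that
for all `d ≥ d₀`, for all laws such that all intervals of length `2 δ d` have probability at most `ε`, the conclusions
`ToriCriteria I d a` hold for the tuple `a` of monomials with probability at least `1 - C ε`.

The starting result `AlmostAllMonomials` is the case of the uniform distribution on all tuples of monomials. `ToriCriteria I d a`
(the conclusions of that result): for all projective varieties `X` given by `m` linear combinations `F e` of the monomials with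
the exponent vectors `a i` and of the `x_j ^ d`: `ToriSuffice F` (the Zariski closures of the union of the entire curves in `X`, of
the images of the nonconstant holomorphic maps from complex tori, from one-dimensional tori and from the multiplicative group
coincide; it is equivalent that all holomorphic maps from complex tori to `X` are constant, that all those from one-dimensional
tori are constant, that `X` is Brody hyperbolic, that `X` contains no rational curves, and that the maps `t ↦ (x_j t ^ b_j)` to
`X` are constant), and, if any `m` of the coefficient vectors are linearly independent, all entire curves in `X` lie in the union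
of the coordinate subspaces given by the sets `J` of variables on which the `I i` are not well spread with respect to `m`; for the
hypersurfaces (with arbitrary coefficients) the combinatorial criterion `LooseCriterion F`.
-/

set_option autoImplicit false

namespace Pool.Agent.Results.MP_45e720_ag.RandomExponents

open Finset Pool.Agent.J4.H93.WS Pool.Agent.J4.H93.WS.RT Pool.Agent.R869.Wd

open Classical in
theorem result {n s : ℕ} (I : Fin s → Finset (Fin (n + 1))) (piv : Fin s → Fin (n + 1)) (hpiv : ∀ i, piv i ∈ I i) :
    ∃ C : ℝ, ∀ δ : ℝ, 0 < δ → ∃ d₀ : ℕ, ∀ d : ℕ, d₀ ≤ d → ∀ (w : Free I piv → Fin (d + 1) → ℝ) (ε : ℝ),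
      (∀ c t, 0 ≤ w c t) → (∀ c, ∑ t, w c t = 1) → (∀ c t, w c t ≠ 0 → n * (t : ℕ) ≤ d) →
      (∀ c (y : ℝ), ∑ t ∈ univ.filter (fun t : Fin (d + 1) => |((t : ℕ) : ℝ) - y| ≤ δ * d), w c t ≤ ε) →
      ∑ x ∈ univ.filter (fun x : Free I piv → Fin (d + 1) => ¬ ToriCriteria I d (tup I piv d fun c => x c)),
        ∏ c, w c (x c) ≤ C * ε := by
  obtain ⟨C, hC⟩ := prob_typ I piv hpiv
  refine ⟨C, fun δ hδ => ?_⟩
  obtain ⟨d₀, h⟩ := hC δ hδ
  refine ⟨d₀, fun d hd w ε hw0 hw1 hwd hε => le_trans ?_ (h d hd w ε hw0 hw1 hwd hε)⟩
  refine sum_le_sum_of_subset_of_nonneg ?_ fun x _ _ => prod_nonneg fun c _ => hw0 _ _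
  intro x hx
  rw [mem_filter] at hx ⊢
  exact ⟨mem_univ _, fun hty => hx.2 (criteria_of_typ hty)⟩

end Pool.Agent.Results.MP_45e720_ag.RandomExponents
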